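import Pool.Agent.Lib.MP_6bc78b_nt.MS.QZ.Iface

/-! Project MS, Part QZ, module ACN (helper38): norms without `μ`. -/

set_option autoImplicit false

open Complex Filter Topology MeasureTheory ArithmeticFunction

namespace Pool.Agent.Lib.MP_6bc78b_nt.MS.QZ.H38

open Pool.Agent.Lib.MP_6bc78b_nt.MS Pool.Agent.Lib.MP_6bc78b_nt.MS.P1

theorem nu_nonneg (n : ℕ) : 0 ≤ nu n :=
  Finset.prod_nonneg fun _ _ => by positivity

theorem nu_le_one (n : ℕ) : nu n ≤ 1 := by
  refine Finset.prod_le_one (fun _ _ => by positivity) fun p _ => ?_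
  have h : (1 : ℝ) ≤ ((n.factorization p).factorial : ℝ) := by
    exact_mod_cast Nat.one_le_iff_ne_zero.2 (Nat.factorial_ne_zero _)
  exact (div_le_one (by linarith)).2 h

/-- comparison of `NN` with a sum -/
theorem nn_le (f : ArithmeticFunction ℝ) (g : ℕ → ℝ) (s : ℝ) (h : ∀ n, f n ^ 2 ≤ g n)
    (hs : HasSum (fun n : ℕ => g n / (n : ℝ)) s) : NN (toC f) ≤ ENNReal.ofReal s := by
  have hg : ∀ n : ℕ, 0 ≤ g n / (n : ℝ) := fun n =>
    div_nonneg ((sq_nonneg _).trans (h n)) (Nat.cast_nonneg n)
  rw [← hs.tsum_eq, ENNReal.ofReal_tsum_of_nonneg hg hs.summable]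
  refine ENNReal.tsum_le_tsum fun n => ENNReal.ofReal_le_ofReal ?_
  refine div_le_div_of_nonneg_right ?_ (Nat.cast_nonneg n)
  rw [toC_apply, Complex.norm_real, Real.norm_eq_abs, sq_abs]
  exact h n

theorem acn (hVnu : VnuStatement) (hPsm : PsmStatement) : AcnStatement := by
  intro S hS
  constructor
  · intro α K
    refine nn_le _ _ _ (fun n => ?_) (hPsm.2 S (α ^ 2) hS (sq_nonneg α))
    have h0 : 0 ≤ ae (α ^ 2) S n := by
      simp only [ae, ArithmeticFunction.coe_mk]
      split_ifs
      · exact mul_nonneg (by positivity) (nu_nonneg n)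
      · exact le_rfl
    rw [hVnu.2 α S K n]
    split_ifs
    · simp only [ae, ArithmeticFunction.coe_mk]
      split_ifs
      · have h1 := nu_nonneg n
        have h2 := nu_le_one n
        have h3 : 0 ≤ (α ^ 2) ^ cardFactors n := by positivity
        calc (α ^ cardFactors n * nu n) ^ 2 = (α ^ 2) ^ cardFactors n * (nu n * nu n) := by
              rw [mul_pow, ← pow_mul, ← pow_mul]
              ring
          _ ≤ (α ^ 2) ^ cardFactors n * (nu n * 1) :=
              mul_le_mul_of_nonneg_left (mul_le_mul_of_nonneg_left h2 h1) h3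
          _ = _ := by rw [mul_one]
      · norm_num
    · norm_num
      exact h0
  · intro r
    have hs : HasSum (fun n : ℕ => ((r.factorial : ℝ) * (pS S ^ r) n) / (n : ℝ))
        ((r.factorial : ℝ) * rs S ^ r) := by
      simpa only [mul_div_assoc] using (hPsm.1 S r hS).mul_left (r.factorial : ℝ)
    refine nn_le _ _ _ (fun n => ?_) hs
    rcases eq_or_ne n 0 with hn | hn
    · subst hn
      simp
    rw [hVnu.1 S r n hn]
    split_ifs
    · have h1 := nu_nonneg n
      have h2 := nu_le_one n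
      have h3 : (0 : ℝ) ≤ (r.factorial : ℝ) ^ 2 := by positivity
      calc ((r.factorial : ℝ) * nu n) ^ 2 = (r.factorial : ℝ) ^ 2 * (nu n * nu n) := by ring
        _ ≤ (r.factorial : ℝ) ^ 2 * (nu n * 1) :=
            mul_le_mul_of_nonneg_left (mul_le_mul_of_nonneg_left h2 h1) h3
        _ = _ := by ring
    · norm_num

end Pool.Agent.Lib.MP_6bc78b_nt.MS.QZ.H38
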